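import Mathlib
import Pool.Agent.Lib.MP_64d474_lc.BB91.Rank

/-!
Block triangular matrices with small blocks: one curve hits all the blocks at once.
-/

namespace Pool.Agent.Lib.MP_64d474_lc.BB55

open Matrix Polynomial BB91

variable {F : Type*} [Field F] {m b Z : ℕ}

/-- The determinants of size `b` are nonzero polynomials of degree at most `Z` along the curve. -/
def Hit (F : Type*) [Field F] (c : ℕ → Fin m → ℕ) (b Z : ℕ) : Prop :=
  ∀ B : Fin m → Matrix (Fin b) (Fin b) F, ∀ g ∈ minors (lin B) b, g ≠ 0 →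
    ∃ p : F[X], p ≠ 0 ∧ p.natDegree ≤ Z ∧
      ∀ z : ℕ, p.eval (z : F) = g (fun k => (c z k : F))

/-- Padding with a multiple of a variable. -/
theorem pad_block {ι : Type*} [Fintype ι] [DecidableEq ι] [Nonempty ι]
    (hb : Fintype.card ι ≤ b) (A : Fin m → Matrix ι ι F) (x : Fin m → F)
    (hx : (∑ k, x k • A k).det ≠ 0) :
    ∃ B : Fin m → Matrix (Fin b) (Fin b) F, (∑ k, x k • B k).det ≠ 0 ∧
      ∀ y : Fin m → F, (∑ k, y k • B k).det ≠ 0 → (∑ k, y k • A k).det ≠ 0 := by
  classical
  obtain ⟨k₀, hk₀⟩ : ∃ k₀, x k₀ ≠ 0 := by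
    by_contra hcon
    push Not at hcon
    apply hx
    have h0 : (∑ k, x k • A k) = 0 := Finset.sum_eq_zero fun k _ => by rw [hcon k, zero_smul]
    rw [h0]
    exact Matrix.det_zero
  obtain ⟨s, hs⟩ : ∃ s, Fintype.card ι + s = b := ⟨b - Fintype.card ι, by omega⟩
  have hcard : Fintype.card (ι ⊕ Fin s) = Fintype.card (Fin b) := by
    rw [Fintype.card_sum, Fintype.card_fin, Fintype.card_fin, hs]
  let e : ι ⊕ Fin s ≃ Fin b := Fintype.equivOfCardEq hcard
  let B : Fin m → Matrix (Fin b) (Fin b) F := fun k =>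
    Matrix.reindex e e (Matrix.fromBlocks (A k) 0 0
      (if k = k₀ then (1 : Matrix (Fin s) (Fin s) F) else 0))
  have hB : ∀ y : Fin m → F, (∑ k, y k • B k) =
      Matrix.reindex e e (Matrix.fromBlocks (∑ k, y k • A k) 0 0
        (y k₀ • (1 : Matrix (Fin s) (Fin s) F))) := by
    intro y
    ext i j
    simp only [B, Matrix.sum_apply, Matrix.smul_apply, Matrix.reindex_apply,
      Matrix.submatrix_apply]
    rcases e.symm i with i' | i' <;> rcases e.symm j with j' | j'
    · simp [Matrix.sum_apply, Matrix.smul_apply]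
    · simp
    · simp
    · simp only [Matrix.fromBlocks_apply₂₂, Matrix.smul_apply, smul_eq_mul]
      rw [Finset.sum_eq_single k₀]
      · simp
      · intro k _ hk
        simp [hk]
      · intro h
        exact absurd (Finset.mem_univ _) h
  have hdet : ∀ y : Fin m → F, (∑ k, y k • B k).det = (∑ k, y k • A k).det * y k₀ ^ s := by
    intro y
    rw [hB, Matrix.det_reindex_self, Matrix.det_fromBlocks_zero₂₁, Matrix.det_smul,
      Matrix.det_one, mul_one, Fintype.card_fin]
  refine ⟨B, ?_, fun y hy => ?_⟩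
  · rw [hdet]
    exact mul_ne_zero hx (pow_ne_zero _ hk₀)
  · rw [hdet] at hy
    exact left_ne_zero_of_mul hy

/-- One block. -/
theorem one_block {c : ℕ → Fin m → ℕ} (hγ : Hit F c b Z) {ι : Type*} [Fintype ι] [DecidableEq ι]
    (hb : Fintype.card ι ≤ b) (A : Fin m → Matrix ι ι F) (x : Fin m → F)
    (hx : (∑ k, x k • A k).det ≠ 0) :
    ∃ p : F[X], p ≠ 0 ∧ p.natDegree ≤ Z ∧ ∀ z : ℕ, p.eval (z : F) ≠ 0 →
      (∑ k, (c z k : F) • A k).det ≠ 0 := by
  classical
  rcases isEmpty_or_nonempty ι with hι | hι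
  · refine ⟨1, one_ne_zero, by simp, fun z _ => ?_⟩
    rw [Matrix.det_isEmpty]
    exact one_ne_zero
  · obtain ⟨B, hB, hBA⟩ := pad_block hb A x hx
    obtain ⟨p, hp0, hpd, hp⟩ := hγ B (fun y => ((lin B y).submatrix id id).det)
      (minor_mem (lin B) b id id) (by
        intro h
        apply hB
        have h1 := congrFun h x
        simpa [lin_apply] using h1)
    refine ⟨p, hp0, hpd, fun z hz => ?_⟩
    apply hBA
    rw [hp] at hz
    simp only [lin_apply, Matrix.submatrix_id_id] at hz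
    exact hz

/-- Several blocks at once. -/
theorem many_blocks [CharZero F] {c : ℕ → Fin m → ℕ} (hγ : Hit F c b Z) {J : Type*} [Fintype J]
    {ι : J → Type*} [∀ j, Fintype (ι j)] [∀ j, DecidableEq (ι j)]
    (hb : ∀ j, Fintype.card (ι j) ≤ b) (A : ∀ j, Fin m → Matrix (ι j) (ι j) F)
    (hx : ∀ j, ∃ x : Fin m → F, (∑ k, x k • A j k).det ≠ 0) :
    ∃ z : ℕ, z ≤ Fintype.card J * Z ∧ ∀ j, (∑ k, (c z k : F) • A j k).det ≠ 0 := by
  classical
  choose x hx using hx
  choose p hp0 hpd hp using fun j => one_block hγ (hb j) (A j) (x j) (hx j)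
  have hP0 : (∏ j, p j) ≠ 0 := Finset.prod_ne_zero_iff.mpr fun j _ => hp0 j
  have hPd : (∏ j, p j).natDegree ≤ Fintype.card J * Z := by
    refine (natDegree_prod_le _ _).trans ?_
    calc ∑ j, (p j).natDegree ≤ ∑ _j : J, Z := Finset.sum_le_sum fun j _ => hpd j
      _ = Fintype.card J * Z := by simp
  by_contra hcon
  push Not at hcon
  apply hP0
  have hcard : ((Finset.range (Fintype.card J * Z + 1)).image (fun z : ℕ => (z : F))).card =
      Fintype.card J * Z + 1 := by
    rw [Finset.card_image_of_injective _ Nat.cast_injective, Finset.card_range]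
  refine Polynomial.eq_zero_of_natDegree_lt_card_of_eval_eq_zero' _
    ((Finset.range (Fintype.card J * Z + 1)).image (fun z : ℕ => (z : F))) ?_ (by omega)
  intro a ha
  obtain ⟨z, hz, rfl⟩ := Finset.mem_image.mp ha
  obtain ⟨j, hj⟩ := hcon z (by have := Finset.mem_range.mp hz; omega)
  rw [Polynomial.eval_prod]
  apply Finset.prod_eq_zero (Finset.mem_univ j)
  by_contra hne
  exact hp j z hne hj

/-- Block triangular matrices with blocks of size at most `b`, in unknown coordinates. -/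
theorem block_hits [CharZero F] {c : ℕ → Fin m → ℕ} (hγ : Hit F c b Z) {n : ℕ}
    (A : Fin m → Matrix (Fin n) (Fin n) F) (P Q : Matrix (Fin n) (Fin n) F) (hP : P.det ≠ 0)
    (hQ : Q.det ≠ 0) (f : Fin n → ℕ) (hf : ∀ i, (Finset.univ.filter fun a => f a = i).card ≤ b)
    (hA : ∀ k, (P * A k * Q).BlockTriangular f) (x : Fin m → F)
    (hx : (∑ k, x k • A k).det ≠ 0) :
    ∃ z : ℕ, z ≤ n * Z ∧ (∑ k, (c z k : F) • A k).det ≠ 0 := by
  classical
  have hS : ∀ y : Fin m → F, P * (∑ k, y k • A k) * Q = ∑ k, y k • (P * A k * Q) := by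
    intro y
    rw [Matrix.mul_sum, Matrix.sum_mul]
    refine Finset.sum_congr rfl fun k _ => ?_
    rw [Matrix.mul_smul, Matrix.smul_mul]
  have hT : ∀ y : Fin m → F, (∑ k, y k • (P * A k * Q)).BlockTriangular f := by
    intro y i j hij
    rw [Matrix.sum_apply]
    refine Finset.sum_eq_zero fun k _ => ?_
    rw [Matrix.smul_apply, hA k hij, smul_zero]
  have hdet : ∀ y : Fin m → F, P.det * (∑ k, y k • A k).det * Q.det =
      ∏ a : {a // a ∈ Finset.univ.image f},
        (∑ k, y k • (P * A k * Q).toSquareBlock f (a : ℕ)).det := by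
    intro y
    rw [← Matrix.det_mul, ← Matrix.det_mul, hS, (hT y).det, ← Finset.prod_coe_sort]
    refine Finset.prod_congr rfl fun a _ => ?_
    congr 1
    ext i j
    simp [Matrix.toSquareBlock, Matrix.toSquareBlockProp, Matrix.sum_apply]
  have hne : ∏ a : {a // a ∈ Finset.univ.image f},
      (∑ k, x k • (P * A k * Q).toSquareBlock f (a : ℕ)).det ≠ 0 := by
    rw [← hdet]
    exact mul_ne_zero (mul_ne_zero hP hx) hQ
  rw [Finset.prod_ne_zero_iff] at hne
  obtain ⟨z, hz, hall⟩ := many_blocks hγ (J := {a // a ∈ Finset.univ.image f})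
    (ι := fun a => {i // f i = (a : ℕ)})
    (fun a => by
      rw [Fintype.card_subtype]
      exact hf a)
    (fun a k => (P * A k * Q).toSquareBlock f (a : ℕ)) (fun a => ⟨x, hne a (Finset.mem_univ a)⟩)
  refine ⟨z, hz.trans (Nat.mul_le_mul_right _ ?_), ?_⟩
  · rw [Fintype.card_coe]
    refine Finset.card_image_le.trans ?_
    simp
  · have h1 : P.det * (∑ k, (c z k : F) • A k).det * Q.det ≠ 0 := by
      rw [hdet (fun k => (c z k : F)), Finset.prod_ne_zero_iff]
      exact fun a _ => hall a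
    exact right_ne_zero_of_mul (left_ne_zero_of_mul h1)

end Pool.Agent.Lib.MP_64d474_lc.BB55
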