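import Mathlib
import Pool.Agent.Lib.MP_64d474_lc.BB91.Def

/-!
The test vectors: the curve `curve ℕ m b b`, moved along `κ` moment vectors.
-/

namespace Pool.Agent.Lib.MP_64d474_lc.BB55

/-- The moment vector `(1, s, …, s ^ (m - 1))`. -/
def mom (m s : ℕ) : Fin m → ℕ := fun k => s ^ (k : ℕ)

/-- The point `p + ∑ t_i · mom (a 2 ^ i)`. -/
def shift {m : ℕ} (κ a : ℕ) (t : Fin κ → ℕ) (p : Fin m → ℕ) : Fin m → ℕ := fun k =>
  p k + ∑ i : Fin κ, t i * mom m (a * 2 ^ (i : ℕ)) k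

/-- The set of all `p + ∑ t_i · mom (a 2 ^ i)`, `p ∈ H`, `a ≤ κ m`, `t_i ≤ n`. -/
def grow (m κ n : ℕ) (H : Finset (Fin m → ℕ)) : Finset (Fin m → ℕ) :=
  (H ×ˢ (Finset.range (κ * m + 1) ×ˢ (Finset.univ : Finset (Fin κ → Fin (n + 1))))).image
    fun q => shift κ q.2.1 (fun i => ((q.2.2 i : Fin (n + 1)) : ℕ)) q.1

/-- The tests: the values of the curve `curve ℕ m b b` at `0, …, r * exc m b b`, moved. -/
def tests (m b κ r : ℕ) : Finset (Fin m → ℕ) :=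
  grow m κ r ((Finset.range (r * BB91.exc m b b + 1)).image fun z => BB91.curve ℕ m b b z)

end Pool.Agent.Lib.MP_64d474_lc.BB55
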