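import Mathlib
import Pool.Agent.Lib.MP_64d474_lc.BB91.Cond
import Pool.Agent.Lib.MP_64d474_lc.BB55.Grow

/-!
Codimension clause: if `f` is nonzero at `π p` for some `p ∈ H`, where `π` is any affine
projection onto an affine subspace `W` of codimension `κ`, then `f` is nonzero at a point of the
explicit set `grow m κ n H`, which does not depend on `W`.
-/

namespace Pool.Agent.Lib.MP_64d474_lc.BB55

open Polynomial Matrix

theorem card_grow (m κ n : ℕ) (H : Finset (Fin m → ℕ)) :
    (grow m κ n H).card ≤ H.card * (κ * m + 1) * (n + 1) ^ κ := by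
  refine Finset.card_image_le.trans ?_
  rw [Finset.card_product, Finset.card_product, Finset.card_range]
  simp [mul_assoc]

variable {K : Type*} [Field K]

/-- cast of a point -/
def cs (K : Type*) [Field K] {m : ℕ} (p : Fin m → ℕ) : Fin m → K := fun k => (p k : K)

/-- The polynomial of a linear form. -/
noncomputable def formPoly {m : ℕ} (l : (Fin m → K) →ₗ[K] K) : K[X] :=
  ∑ k : Fin m, C (l (Pi.single k 1)) * X ^ (k : ℕ)

theorem formPoly_natDegree {m : ℕ} (l : (Fin m → K) →ₗ[K] K) : (formPoly l).natDegree ≤ m := by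
  refine natDegree_sum_le_of_forall_le _ _ fun k _ => ?_
  exact (natDegree_C_mul_X_pow_le _ _).trans k.2.le

theorem formPoly_eval {m : ℕ} (l : (Fin m → K) →ₗ[K] K) (s : ℕ) :
    (formPoly l).eval (s : K) = l (cs K (mom m s)) := by
  have h : cs K (mom m s) = ∑ k : Fin m, ((s : K) ^ (k : ℕ)) • (Pi.single k (1 : K)) := by
    funext j
    simp [cs, mom, Finset.sum_apply, Pi.single_apply]
  rw [h, map_sum, formPoly, eval_finsetSum]
  refine Finset.sum_congr rfl fun k _ => ?_
  rw [eval_mul, eval_C, eval_pow, eval_X, map_smul, smul_eq_mul, mul_comm]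

theorem formPoly_eq_zero {m : ℕ} (l : (Fin m → K) →ₗ[K] K) (h : formPoly l = 0) : l = 0 := by
  apply LinearMap.pi_ext'
  intro k
  ext
  simp only [LinearMap.comp_apply, LinearMap.single_apply, LinearMap.zero_apply]
  have h1 := congrArg (fun p => coeff p (k : ℕ)) h
  simp only [formPoly, finsetSum_coeff, coeff_C_mul, coeff_X_pow, coeff_zero] at h1
  rw [Finset.sum_eq_single k] at h1
  · simpa using h1
  · intro j _ hj
    rw [if_neg (fun h => hj (Fin.ext h.symm)), mul_zero]
  · intro h; exact absurd (Finset.mem_univ _) h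

/-- The linear map `K^m → (quotient by W)` is onto when restricted to the moment vectors. -/
theorem exists_moments [CharZero K] {m κ : ℕ} (W : Submodule K (Fin m → K))
    (hW : m ≤ Module.finrank K W + κ) :
    ∃ a : ℕ, a ≤ κ * m ∧ ∀ x : Fin m → K, ∃ t : Fin κ → K,
      x + ∑ i : Fin κ, t i • cs K (mom m (a * 2 ^ (i : ℕ))) ∈ W := by
  classical
  -- linear forms vanishing on W
  obtain ⟨A, hA⟩ : ∃ A : Submodule K ((Fin m → K) →ₗ[K] K), A = W.dualAnnihilator := ⟨_, rfl⟩
  have hAdim : Module.finrank K A ≤ κ := by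
    have h1 : Module.finrank K W + Module.finrank K A = Module.finrank K (Fin m → K) := by
      rw [hA]
      exact Subspace.finrank_add_finrank_dualAnnihilator_eq W
    rw [Module.finrank_fin_fun] at h1
    omega
  obtain ⟨d, hd⟩ : ∃ d, Module.finrank K A = d := ⟨_, rfl⟩
  have : Module.Free K A := Module.Free.of_divisionRing K A
  have : Module.Finite K A := inferInstance
  let bA := Module.finBasisOfFinrankEq K A hd
  have hdκ : d ≤ κ := hd ▸ hAdim
  let u : Fin κ → K[X] := fun i =>
    if h : (i : ℕ) < d then formPoly ((bA ⟨i, h⟩ : A) : (Fin m → K) →ₗ[K] K) else 0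
  obtain ⟨a, ha, hgood⟩ := BB91.condenser κ m u (by
    intro i
    simp only [u]
    split
    · exact formPoly_natDegree _
    · simp)
  refine ⟨a, ha, ?_⟩
  -- the span of the moment vectors together with W is everything
  set S : Submodule K (Fin m → K) :=
    Submodule.span K (Set.range fun i : Fin κ => cs K (mom m (a * 2 ^ (i : ℕ)))) with hS
  have htop : W ⊔ S = ⊤ := by
    by_contra hne
    -- a nonzero form vanishing on W ⊔ S
    have h1 : (W ⊔ S).dualAnnihilator ≠ ⊥ := by
      intro h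
      apply hne
      have := Subspace.dualAnnihilator_inj (W := W ⊔ S) (W' := ⊤)
      rw [← this, h, Submodule.dualAnnihilator_top]
    obtain ⟨l, hl, hl0⟩ := (Submodule.ne_bot_iff _).mp h1
    have hlW : l ∈ A := by
      rw [hA]
      exact Submodule.dualAnnihilator_anti le_sup_left hl
    have hlS : ∀ i : Fin κ, l (cs K (mom m (a * 2 ^ (i : ℕ)))) = 0 := by
      intro i
      rw [Submodule.mem_dualAnnihilator] at hl
      exact hl _ (Submodule.mem_sup_right (Submodule.subset_span ⟨i, rfl⟩))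
    have hmem : formPoly l ∈ Submodule.span K (Set.range u) := by
      have hrep : l = ∑ i : Fin d, (bA.repr ⟨l, hlW⟩ i) • ((bA i : A) : (Fin m → K) →ₗ[K] K) := by
        have h2 := congrArg (fun z : A => A.subtype z) (bA.sum_repr ⟨l, hlW⟩)
        simp only [map_sum, map_smul, Submodule.subtype_apply] at h2
        exact h2.symm
      have hadd : formPoly l = ∑ i : Fin d, (bA.repr ⟨l, hlW⟩ i) •
          formPoly ((bA i : A) : (Fin m → K) →ₗ[K] K) := by
        have h3 : formPoly l = formPoly (∑ i : Fin d, (bA.repr ⟨l, hlW⟩ i) •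
          ((bA i : A) : (Fin m → K) →ₗ[K] K)) := congrArg formPoly hrep
        rw [h3]
        simp only [formPoly, LinearMap.sum_apply, LinearMap.smul_apply, smul_eq_mul, map_sum,
          Finset.sum_mul, Finset.smul_sum]
        rw [Finset.sum_comm]
        refine Finset.sum_congr rfl fun i _ => Finset.sum_congr rfl fun k _ => ?_
        rw [map_mul, smul_eq_C_mul, mul_assoc]
      rw [hadd]
      refine Submodule.sum_mem _ fun i _ => Submodule.smul_mem _ _ (Submodule.subset_span ?_)
      refine ⟨⟨i, i.2.trans_le hdκ⟩, ?_⟩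
      simp [u, i.2]
    have hz : formPoly l = 0 := by
      apply hgood _ hmem
      intro i hi
      have h4 := formPoly_eval l (a * 2 ^ i)
      have h5 : (((a * 2 ^ i : ℕ)) : K) = (2 : K) ^ i * (a : K) := by push_cast; ring
      rw [h5] at h4
      rw [h4]
      exact hlS ⟨i, hi⟩
    exact hl0 (formPoly_eq_zero l hz)
  intro x
  have hx : -x ∈ W ⊔ S := by rw [htop]; exact Submodule.mem_top
  obtain ⟨w, hw, s, hs, hws⟩ := Submodule.mem_sup.mp hx
  obtain ⟨t, ht⟩ := (Submodule.mem_span_range_iff_exists_fun K).mp hs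
  refine ⟨t, ?_⟩
  rw [ht]
  have : x + s = -w := by
    have h6 : w + s = -x := hws
    have h7 : s = -x - w := by rw [← h6]; abel
    rw [h7]; abel
  rw [this]
  exact W.neg_mem hw

/-- A linear choice of the coefficients, zero on `W`. -/
theorem exists_projection [CharZero K] {m κ : ℕ} (W : Submodule K (Fin m → K))
    (hW : m ≤ Module.finrank K W + κ) :
    ∃ a : ℕ, a ≤ κ * m ∧ ∃ Q : (Fin m → K) →ₗ[K] (Fin κ → K), (∀ w ∈ W, Q w = 0) ∧
      ∀ x : Fin m → K, x + ∑ i : Fin κ, Q x i • cs K (mom m (a * 2 ^ (i : ℕ))) ∈ W := by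
  obtain ⟨a, ha, hx⟩ := exists_moments W hW
  refine ⟨a, ha, ?_⟩
  let φ : (Fin κ → K) →ₗ[K] ((Fin m → K) ⧸ W) :=
    W.mkQ ∘ₗ Fintype.linearCombination K (fun i : Fin κ => cs K (mom m (a * 2 ^ (i : ℕ))))
  have hφ : LinearMap.range φ = ⊤ := by
    rw [LinearMap.range_eq_top]
    intro y
    obtain ⟨x, rfl⟩ := W.mkQ_surjective y
    obtain ⟨t, ht⟩ := hx (-x)
    refine ⟨t, ?_⟩
    simp only [φ, LinearMap.comp_apply, Fintype.linearCombination_apply]
    have h1 := (Submodule.Quotient.mk_eq_zero W).mpr ht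
    rw [← Submodule.mkQ_apply, map_add, map_neg] at h1
    rw [neg_add_eq_zero] at h1
    exact h1.symm
  obtain ⟨ψ, hψ⟩ := φ.exists_rightInverse_of_surjective hφ
  refine ⟨-(ψ ∘ₗ W.mkQ), ?_, ?_⟩
  · intro w hw
    have h1 : W.mkQ w = 0 := by
      rw [Submodule.mkQ_apply]; exact (Submodule.Quotient.mk_eq_zero W).mpr hw
    simp [h1]
  · intro x
    rw [← Submodule.Quotient.mk_eq_zero W, ← Submodule.mkQ_apply, map_add]
    have h2 : φ (ψ (W.mkQ x)) = W.mkQ x := by
      rw [← LinearMap.comp_apply, hψ, LinearMap.id_apply]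
    have h3 : φ (ψ (W.mkQ x)) =
        W.mkQ (∑ i : Fin κ, (ψ (W.mkQ x)) i • cs K (mom m (a * 2 ^ (i : ℕ)))) := by
      simp only [φ, LinearMap.comp_apply, Fintype.linearCombination_apply]
    have h4 : (∑ i : Fin κ, (-(ψ ∘ₗ W.mkQ)) x i • cs K (mom m (a * 2 ^ (i : ℕ)))) =
        -∑ i : Fin κ, (ψ (W.mkQ x)) i • cs K (mom m (a * 2 ^ (i : ℕ))) := by
      simp [Finset.sum_neg_distrib]
    rw [h4, map_neg, ← h3, h2]
    abel

theorem totalDegree_aeval_le {m κ : ℕ} (f : MvPolynomial (Fin m) K)
    (g : Fin m → MvPolynomial (Fin κ) K) (hg : ∀ k, (g k).totalDegree ≤ 1) :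
    (MvPolynomial.aeval g f).totalDegree ≤ f.totalDegree := by
  rw [MvPolynomial.aeval_def, MvPolynomial.eval₂_eq']
  refine MvPolynomial.totalDegree_finsetSum_le fun d hd => ?_
  refine (MvPolynomial.totalDegree_mul _ _).trans ?_
  rw [MvPolynomial.algebraMap_eq, MvPolynomial.totalDegree_C, zero_add]
  refine (MvPolynomial.totalDegree_finsetProd _ _).trans ?_
  refine (Finset.sum_le_sum fun k _ => (MvPolynomial.totalDegree_pow _ _).trans
    (Nat.mul_le_mul_left _ (hg k))).trans ?_
  simp only [mul_one]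
  refine le_trans (le_of_eq ?_) (MvPolynomial.le_totalDegree hd)
  rw [Finsupp.sum_fintype _ _ (fun _ => rfl)]

/-- The codimension clause. -/
theorem grow_hits [CharZero K] {m κ n : ℕ} (f : MvPolynomial (Fin m) K) (hf : f.totalDegree ≤ n)
    (W : Submodule K (Fin m → K)) (hW : m ≤ Module.finrank K W + κ) (w0 : Fin m → K)
    (H : Finset (Fin m → ℕ))
    (hit : ∀ P : (Fin m → K) →ₗ[K] (Fin m → K), (∀ x, P x ∈ W) → (∀ w ∈ W, P w = w) →
      ∃ p ∈ H, MvPolynomial.eval (w0 + P (cs K p - w0)) f ≠ 0) :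
    ∃ h ∈ grow m κ n H, MvPolynomial.eval (cs K h) f ≠ 0 := by
  classical
  obtain ⟨a, ha, Q, hQW, hQ⟩ := exists_projection W hW
  let u : Fin κ → (Fin m → K) := fun i => cs K (mom m (a * 2 ^ (i : ℕ)))
  let P : (Fin m → K) →ₗ[K] (Fin m → K) := LinearMap.id + (Fintype.linearCombination K u) ∘ₗ Q
  have hP : ∀ x, P x = x + ∑ i, Q x i • u i := by
    intro x
    simp [P, Fintype.linearCombination_apply]
  obtain ⟨p, hp, hne⟩ := hit P (fun x => by rw [hP]; exact hQ x) (fun w hw => by
    rw [hP, hQW w hw]; simp)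
  let g : Fin m → MvPolynomial (Fin κ) K := fun k =>
    MvPolynomial.C (p k : K) + ∑ i : Fin κ, MvPolynomial.C (u i k) * MvPolynomial.X i
  have hg : ∀ k, (g k).totalDegree ≤ 1 := by
    intro k
    refine (MvPolynomial.totalDegree_add _ _).trans (max_le ?_ ?_)
    · rw [MvPolynomial.totalDegree_C]; exact Nat.zero_le _
    · refine MvPolynomial.totalDegree_finsetSum_le fun i _ => ?_
      refine (MvPolynomial.totalDegree_mul _ _).trans ?_
      rw [MvPolynomial.totalDegree_C, zero_add]
      exact (MvPolynomial.totalDegree_X i).le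
  have heval : ∀ t : Fin κ → K, MvPolynomial.eval t (MvPolynomial.aeval g f) =
      MvPolynomial.eval (cs K p + ∑ i, t i • u i) f := by
    intro t
    have e1 : MvPolynomial.eval t (MvPolynomial.aeval g f) =
        MvPolynomial.aeval t (MvPolynomial.aeval g f) := by
      rw [MvPolynomial.aeval_eq_eval]
    have e2 : MvPolynomial.eval (cs K p + ∑ i, t i • u i) f =
        MvPolynomial.aeval (cs K p + ∑ i, t i • u i) f := by
      rw [MvPolynomial.aeval_eq_eval]
    rw [e1, e2, ← AlgHom.comp_apply, MvPolynomial.comp_aeval]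
    congr 2
    funext k
    simp only [g, map_add, map_sum, map_mul, MvPolynomial.aeval_C, MvPolynomial.aeval_X,
      Pi.add_apply, Finset.sum_apply, Pi.smul_apply, smul_eq_mul, Algebra.algebraMap_self,
      RingHom.id_apply, cs]
    congr 1
    exact Finset.sum_congr rfl fun i _ => mul_comm _ _
  have hgne : MvPolynomial.aeval g f ≠ 0 := by
    intro h0
    apply hne
    have h1 := heval (Q (cs K p - w0))
    rw [h0, map_zero] at h1
    rw [hP]
    have h2 : w0 + (cs K p - w0 + ∑ i, Q (cs K p - w0) i • u i) =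
        cs K p + ∑ i, Q (cs K p - w0) i • u i := by abel
    rw [h2, ← h1]
  have hex : ∃ t : Fin κ → K, (∀ i, t i ∈ ((Finset.range (n + 1)).map
      ⟨fun j : ℕ => (j : K), Nat.cast_injective⟩)) ∧
      MvPolynomial.eval t (MvPolynomial.aeval g f) ≠ 0 := by
    by_contra hcon
    push Not at hcon
    apply hgne
    apply MvPolynomial.eq_zero_of_eval_zero_at_prod_finset (MvPolynomial.aeval g f)
      (fun _ => (Finset.range (n + 1)).map ⟨fun j : ℕ => (j : K), Nat.cast_injective⟩)
    · intro i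
      rw [Finset.card_map, Finset.card_range, Nat.lt_succ_iff]
      exact (MvPolynomial.degreeOf_le_totalDegree _ _).trans ((totalDegree_aeval_le f g hg).trans hf)
    · exact hcon
  obtain ⟨t, ht, htne⟩ := hex
  have ht' : ∀ i, ∃ j : Fin (n + 1), ((j : ℕ) : K) = t i := by
    intro i
    obtain ⟨j, hj, hji⟩ := Finset.mem_map.mp (ht i)
    exact ⟨⟨j, Finset.mem_range.mp hj⟩, hji⟩
  choose j hj using ht'
  refine ⟨shift κ a (fun i => (j i : ℕ)) p, ?_, ?_⟩
  · rw [grow, Finset.mem_image]
    refine ⟨(p, a, j), ?_, rfl⟩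
    rw [Finset.mem_product, Finset.mem_product]
    exact ⟨hp, Finset.mem_range.mpr (Nat.lt_succ_of_le ha), Finset.mem_univ _⟩
  · rw [heval] at htne
    have e3 : cs K (shift κ a (fun i => (j i : ℕ)) p) = cs K p + ∑ i, t i • u i := ?_
    · rw [e3]; exact htne
    funext k
    simp only [cs, shift, Pi.add_apply, Finset.sum_apply, Pi.smul_apply, smul_eq_mul, u]
    push_cast
    congr 1
    refine Finset.sum_congr rfl fun i _ => ?_
    rw [← hj i]

end Pool.Agent.Lib.MP_64d474_lc.BB55
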