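import Mathlib
import Pool.Agent.Lib.MP_64d474_lc.BB91.Rank
import Pool.Agent.Lib.MP_64d474_lc.BB55.Blocks
import Pool.Agent.Lib.MP_64d474_lc.BB55.Grow
import Pool.Agent.Lib.MP_64d474_lc.BB55.Codim

/-!
The tests for `r × r` compressions `S A T` which, on a subspace `W` of codimension at most `κ`,
are block triangular with blocks of size at most `b`.
-/

namespace Pool.Agent.Lib.MP_64d474_lc.BB55

open Matrix Polynomial BB91

theorem card_tests (m b κ r : ℕ) :
    (tests m b κ r).card ≤ (r * exc m b b + 1) * (κ * m + 1) * (r + 1) ^ κ := by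
  classical
  refine (card_grow m κ r _).trans ?_
  refine Nat.mul_le_mul_right _ (Nat.mul_le_mul_right _ ?_)
  refine Finset.card_image_le.trans ?_
  rw [Finset.card_range]

theorem card_tests_le (m b κ r : ℕ) :
    (tests m b κ r).card ≤ (r * (m + 1) * 2 ^ (24 * b) + 1) * (κ * m + 1) * (r + 1) ^ κ := by
  refine (card_tests m b κ r).trans ?_
  refine Nat.mul_le_mul_right _ (Nat.mul_le_mul_right _ (Nat.succ_le_succ ?_))
  rw [mul_assoc]
  exact Nat.mul_le_mul_left _ ((Nat.le_succ _).trans (exc_rank_le m b))

variable {F : Type*} [Field F] {m : ℕ}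

theorem hit_curve [CharZero F] (m b : ℕ) (hb : 1 ≤ b) :
    Hit F (fun z => curve ℕ m b b z) b (exc m b b) := by
  intro B g hg hne
  obtain ⟨p, hp0, hpd, hp⟩ := curve_hits B b hb le_rfl g hg hne
  refine ⟨p, hp0, hpd, fun z => ?_⟩
  rw [hp]
  congr 1
  funext k
  rw [curve_cast]

/-- The determinant of the compression as a polynomial. -/
noncomputable def detPoly {n r : ℕ} (B : Fin m → Matrix (Fin n) (Fin n) F)
    (S : Matrix (Fin r) (Fin n) F) (T : Matrix (Fin n) (Fin r) F) : MvPolynomial (Fin m) F :=
  (∑ k, (MvPolynomial.X k : MvPolynomial (Fin m) F) • (S * B k * T).map MvPolynomial.C).det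

theorem detPoly_eval {n r : ℕ} (B : Fin m → Matrix (Fin n) (Fin n) F)
    (S : Matrix (Fin r) (Fin n) F) (T : Matrix (Fin n) (Fin r) F) (y : Fin m → F) :
    MvPolynomial.eval y (detPoly B S T) = (S * (∑ k, y k • B k) * T).det := by
  rw [detPoly, RingHom.map_det]
  congr 1
  have h : S * (∑ k, y k • B k) * T = ∑ k, y k • (S * B k * T) := by
    rw [Matrix.mul_sum, Matrix.sum_mul]
    refine Finset.sum_congr rfl fun k _ => ?_
    rw [Matrix.mul_smul, Matrix.smul_mul]
  rw [h]
  ext i j
  rw [RingHom.mapMatrix_apply, Matrix.map_apply, Matrix.sum_apply, Matrix.sum_apply, map_sum]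
  refine Finset.sum_congr rfl fun k _ => ?_
  rw [Matrix.smul_apply, Matrix.smul_apply, Matrix.map_apply, smul_eq_mul, smul_eq_mul, map_mul,
    MvPolynomial.eval_X, MvPolynomial.eval_C]

theorem detPoly_totalDegree {n r : ℕ} (B : Fin m → Matrix (Fin n) (Fin n) F)
    (S : Matrix (Fin r) (Fin n) F) (T : Matrix (Fin n) (Fin r) F) :
    (detPoly B S T).totalDegree ≤ r := by
  rw [detPoly, Matrix.det_apply]
  refine MvPolynomial.totalDegree_finsetSum_le fun σ _ => ?_
  refine (MvPolynomial.totalDegree_smul_le _ _).trans ?_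
  refine (MvPolynomial.totalDegree_finsetProd _ _).trans ?_
  calc ∑ i, ((∑ k, (MvPolynomial.X k : MvPolynomial (Fin m) F) •
        (S * B k * T).map MvPolynomial.C) (σ i) i).totalDegree ≤ ∑ _i : Fin r, 1 := by
        refine Finset.sum_le_sum fun i _ => ?_
        rw [Matrix.sum_apply]
        refine MvPolynomial.totalDegree_finsetSum_le fun k _ => ?_
        rw [Matrix.smul_apply, Matrix.map_apply, smul_eq_mul]
        refine (MvPolynomial.totalDegree_mul _ _).trans ?_
        rw [MvPolynomial.totalDegree_C, add_zero]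
        exact (MvPolynomial.totalDegree_X k).le
    _ = r := by simp

/-- The tests see a nonzero determinant of a compression which on some subspace of codimension at
most `κ` is block triangular with blocks of size at most `b` and not singular. -/
theorem tests_hits_blocks [CharZero F] (b κ r n : ℕ) (B : Fin m → Matrix (Fin n) (Fin n) F)
    (S : Matrix (Fin r) (Fin n) F) (T : Matrix (Fin n) (Fin r) F) (W : Submodule F (Fin m → F))
    (hW : m ≤ Module.finrank F W + κ) (f : Fin r → ℕ)
    (hf : ∀ i, (Finset.univ.filter fun a => f a = i).card ≤ b)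
    (hA : ∀ x ∈ W, (S * (∑ k, x k • B k) * T).BlockTriangular f)
    (hx : ∃ x ∈ W, (S * (∑ k, x k • B k) * T).det ≠ 0) :
    ∃ h ∈ tests m b κ r, (S * (∑ k, (h k : F) • B k) * T).det ≠ 0 := by
  classical
  obtain ⟨x, hxW, hxne⟩ := hx
  have key := grow_hits (detPoly B S T) (detPoly_totalDegree B S T) W hW 0
    ((Finset.range (r * exc m b b + 1)).image fun z => curve ℕ m b b z) (by
      intro P hPW hPw
      let B' : Fin m → Matrix (Fin r) (Fin r) F := fun k =>
        S * (∑ j, P (Pi.single k 1) j • B j) * T
      have hB' : ∀ y : Fin m → F, (∑ k, y k • B' k) = S * (∑ j, P y j • B j) * T := by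
        intro y
        have h1 : P y = ∑ k, y k • P (Pi.single k 1) := by
          have h2 : y = ∑ k, y k • (Pi.single k (1 : F) : Fin m → F) := by
            funext j
            simp [Finset.sum_apply, Pi.single_apply]
          conv_lhs => rw [h2]
          rw [map_sum]
          simp only [map_smul]
        have h3 : (∑ j, P y j • B j) = ∑ k, y k • (∑ j, P (Pi.single k 1) j • B j) := by
          rw [h1]
          simp only [Finset.sum_apply, Pi.smul_apply, smul_eq_mul, Finset.sum_smul,
            Finset.smul_sum, mul_smul]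
          rw [Finset.sum_comm]
        rw [h3, Matrix.mul_sum, Matrix.sum_mul]
        refine Finset.sum_congr rfl fun k _ => ?_
        rw [Matrix.mul_smul, Matrix.smul_mul]
      have hxP : (∑ k, x k • B' k).det ≠ 0 := by
        rw [hB', hPw x hxW]
        exact hxne
      rcases Nat.eq_zero_or_pos b with hb0 | hb1
      · -- no block: `r = 0`
        subst hb0
        have hr : r = 0 := by
          by_contra hr
          have i0 : Fin r := ⟨0, Nat.pos_of_ne_zero hr⟩
          have h1 := hf (f i0)
          have h2 : i0 ∈ Finset.univ.filter fun a => f a = f i0 := by simp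
          have h3 := Finset.card_pos.mpr ⟨i0, h2⟩
          omega
        subst hr
        refine ⟨curve ℕ m 0 0 0, Finset.mem_image.mpr ⟨0, by simp, rfl⟩, ?_⟩
        rw [detPoly_eval, Matrix.det_isEmpty]
        exact one_ne_zero
      · obtain ⟨z, hz, hne⟩ := block_hits (hit_curve (F := F) m b hb1) B' 1 1 (by simp) (by simp)
          f hf (by
            intro k
            rw [Matrix.one_mul, Matrix.mul_one]
            exact hA _ (hPW _)) x hxP
        refine ⟨curve ℕ m b b z, Finset.mem_image.mpr ⟨z, by
          rw [Finset.mem_range]; omega, rfl⟩, ?_⟩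
        rw [detPoly_eval]
        rw [hB'] at hne
        rw [sub_zero, zero_add]
        exact hne)
  obtain ⟨h, hh, hne⟩ := key
  refine ⟨h, hh, ?_⟩
  rw [detPoly_eval] at hne
  exact hne

end Pool.Agent.Lib.MP_64d474_lc.BB55
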